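import Pool.Agent.Q145.NC.CK

/-!
# Murre's conjecture (B) for zero-cycles: natural decompositions of products of curves

`k` is an algebraically closed field of characteristic zero, `C_j`, `j` in a finite set, are
arbitrary smooth projective curves over `k` and `X = ∏ C_j ^ (N j)`, `d = dim X`.  A natural
correspondence is a linear combination of the graphs of natural maps: each coordinate is of the form
`a(x_(j, f(j, q)))`, where `a` is a morphism from `C_j` to `C_j` which acts as an integer on the
Jacobian: the identity, a constant, the hyperelliptic involution, and so on.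

Theorem. Let `π_0, ..., π_(2 d)` be natural correspondences which act on `CH_0(X)` as orthogonal
idempotents with sum `1` and on the holomorphic forms as a Chow-Künneth decomposition (for example a
Chow-Künneth decomposition of `X`).  Then `F^m CH_0(X) = (π_(2 d - m) + ... + π_0)_* CH_0(X)` satisfies
`F^0 CH_0(X) = CH_0(X)` and `F^(d+1) CH_0(X) = 0`; more precisely `F^m CH_0(X)` is generated by the
exterior products of `m` differences `x_q - y_q` on `m` factors and of points on the other factors.
-/

set_option autoImplicit false

namespace Pool.Agent.Results.MP_d6e134_ag.NaturalDecompositions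

open FF Pool.Agent.Q70.CH Pool.Agent.Q145.NC

theorem result {k : Type} [Field k] [CharZero k] [IsAlgClosed k] {J : Type} [Finite J]
    {K : J → Type} [∀ j, Field (K j)] [∀ j, Algebra k (K j)] [∀ j, IsFF k (K j)] {g : J → ℕ}
    (hg : ∀ j, IsGenus k (K j) (g j)) {N : J → Type} [∀ j, Finite (N j)] [Fintype (Σ j, N j)]
    {d : ℕ} (hd : Fintype.card (Σ j, N j) = d) (π : ℕ → (NMap k K N N →₀ ℚ))
    (hπ : NatDec g N d π) :
    filDec d π 0 = ⊤ ∧ filDec d π (d + 1) = ratTriv (prodC (k := k) K N) ∧
      ∀ m, filDec d π m = fil k K N m := by
  classical
  refine ⟨?_, ?_, fun m => hπ.eq_fil hg hd m⟩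
  · rw [hπ.eq_fil hg hd, fil_zero]
  · rw [hπ.eq_fil hg hd, fil_large (by omega)]

end Pool.Agent.Results.MP_d6e134_ag.NaturalDecompositions
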