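import Pool.Agent.Q69.Cut.MainB

/-!
# Murre's conjectures (A) and (B): one cut for every variety suffices

`𝒱` is a class of smooth projective complex varieties closed under products (for example all of
them), `C` the Chow groups with rational coefficients (in the form of their formal properties and of
the decomposition theorem of Bloch and Srinivas, `IsChowComplex`) and `H` a Weil cohomology theory
(`IsWeilProj`), for example singular cohomology.

A lower half of `X`, of dimension `d`, is an idempotent `e ∈ CH^d(X × X)` which acts on the
cohomology `H(X)` as the projector onto `⊕_(m < d) H^m(X)`. The theorem: every variety has a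
Chow-Kunneth decomposition and `F^0 CH^i(X) = CH^i(X)`, `F^(i+1) CH^i(X) = 0` for all `X`, all
decompositions and all `i` (Murre's conjectures (A) and (B)) if and only if every `X` has a lower
half which acts as zero on the zero-cycles of `X`, and `e ∘ e' = e'` for any two lower halves `e`,
`e'` of the same variety. It is also equivalent that every `X` has a lower half `e` which acts as zero
on zero-cycles, with `(1 - e) ∘ g ∘ e = 0` for all `g ∈ CH^d(X × X)`, and that homologically trivial
idempotents vanish.
-/

open CategoryTheory AlgebraicGeometry

set_option autoImplicit false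

universe u v w

namespace Pool.Agent.Results.MP_d6e134_ag.OneCutPerVariety

open Pool.Agent.H914 Pool.Agent.W492.BB Pool.Agent.TH133 Pool.Agent.Q69.Murre Pool.Agent.Q69.Cut

/-- Murre's conjectures (A) and (B) for all varieties are equivalent to the existence for every
variety of a lower half killing the zero-cycles, and its uniqueness up to `e ∘ e' = e'`. -/
theorem result {k : Type u} [Field k] {𝒱 : VarClass k} (C : TheoryData.{u, v, 0} 𝒱 ℚ)
    [IsChowComplex C] {K : Type w} [Field K] (H : WeilTheoryData.{u, v, w} C K) [IsWeilProj H] :
    [(∀ X : 𝒱.Obj, ∃ π : ℕ → C.A (X.prod X), IsCK H X π) ∧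
        ∀ X : 𝒱.Obj, MurreB0 H X ∧ MurreB1 H X,
      ∀ X : 𝒱.Obj, (∃ e : C.A (X.prod X), IsHalf H X e ∧ KillsZeroCycles C X e) ∧
        ∀ e e' : C.A (X.prod X), IsHalf H X e → IsHalf H X e' → C.comp e' e = e',
      ∀ X : 𝒱.Obj, (∃ e : C.A (X.prod X), IsHalf H X e ∧ Triangular C X e ∧
        KillsZeroCycles C X e) ∧ NoPhantom H X].TFAE :=
  murreB_tfae C H

end Pool.Agent.Results.MP_d6e134_ag.OneCutPerVariety
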