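import Pool.Agent.Q69.Murre.Zero

/-!
# Murre's conjecture (B) reduces to two special codimensions

`𝒱` is a class of smooth projective irreducible varieties over `k = ℂ` closed under products (for
example all of them), `C` the Chow groups with rational coefficients, in the form of their formal
properties, among them the decomposition theorem of Bloch and Srinivas (`IsChowComplex`), and `H` a
Weil cohomology theory (`IsWeilProj`).

The theorem: the conjectures (A) and (B) hold for all varieties of the class (and all their
Chow-Kunneth decompositions, in all codimensions) if and only if the following two special cases do: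

* for all `X` and all Chow-Kunneth decompositions `π`, `π'` of `X`, the equality `F^0 = CH` holds in
  the middle codimension `dim X` of `X × X`, for the product of the transpose of `π` and `π'`;
* every `X` has a Chow-Kunneth decomposition with `F^(d+1) CH_0(X) = 0` for the zero-cycles,
  `d = dim X`.

In particular, given the first half of (B), the second half `F^(i+1) CH^i(X) = 0` only has to be
shown for zero-cycles. The proof is an induction on the dimension: a projector `π_j`, `j < dim X`,
acting as zero on zero-cycles factors through the pull-back to varieties `T` of dimension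
`dim X - 1`, and pull-backs do not raise the weights.
-/

open CategoryTheory AlgebraicGeometry

set_option autoImplicit false

universe u v w

namespace Pool.Agent.Results.MP_d6e134_ag.ZeroCyclesAndMiddle

open Pool.Agent.H914 Pool.Agent.W492.BB Pool.Agent.TH133 Pool.Agent.Q69.Murre

/-- (A) and (B) hold for all varieties if and only if `F^0 = CH` in the middle codimension of all
self-products, for the product decompositions, and every `X` has a Chow-Kunneth decomposition with
`F^(dim X + 1) = 0` on zero-cycles. -/
theorem result {k : Type u} [Field k] {𝒱 : VarClass k} (C : TheoryData.{u, v, 0} 𝒱 ℚ)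
    [IsChowComplex C] {K : Type w} [Field K] (H : WeilTheoryData.{u, v, w} C K) [IsWeilProj H] :
    ((∀ X : 𝒱.Obj, ∃ π : ℕ → C.A (X.prod X), IsCK H X π) ∧
      ∀ X : 𝒱.Obj, MurreB0 H X ∧ MurreB1 H X) ↔
    ((∀ (X : 𝒱.Obj) (π π' : ℕ → C.A (X.prod X)), IsCK H X π → IsCK H X π' →
        ckFil C (selfProd C π π') X.dim 0 = C.gr (X.prod X) X.dim) ∧
      ∀ X : 𝒱.Obj, ∃ π : ℕ → C.A (X.prod X), IsCK H X π ∧
        ckFil C π X.dim (X.dim + 1) = ⊥) :=
  murreB_iff C H

end Pool.Agent.Results.MP_d6e134_ag.ZeroCyclesAndMiddle
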